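import Mathlib

/-!
MP_e2c9e7_nt: hard Lefschetz from the relations of `sl_2` (bounded gradings, no finiteness of dimensions), and the
argument with two centres.
-/

set_option autoImplicit false
set_option linter.unusedSectionVars false

namespace Pool.Agent.Helper21.HL

universe u

variable {V : Type u} [AddCommGroup V] [Module ℚ V]

/-- `(T - r 0) ... (T - r (N - 1)) u` -/
def iter (T : V →ₗ[ℚ] V) (r : ℕ → ℚ) : ℕ → V → V
  | 0, u => u
  | N + 1, u => iter T r N (T u - r N • u)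

theorem iter_smul (T : V →ₗ[ℚ] V) (r : ℕ → ℚ) (N : ℕ) : ∀ (a : ℚ) (u : V), iter T r N (a • u) = a • iter T r N u := by
  induction N with
  | zero => intro a u; rfl
  | succ N ih =>
    intro a u
    rw [iter, iter, ← ih, map_smul, smul_sub, smul_comm a]

theorem iter_zero_vec (T : V →ₗ[ℚ] V) (r : ℕ → ℚ) (N : ℕ) : iter T r N 0 = 0 := by
  have h := iter_smul T r N 0 0
  rwa [zero_smul, zero_smul] at h

theorem iter_eigen (T : V →ₗ[ℚ] V) (r : ℕ → ℚ) (N : ℕ) : ∀ (c : ℚ) (u : V), T u = -c • u →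
    iter T r N u = (∏ j ∈ Finset.range N, (-c - r j)) • u := by
  induction N with
  | zero => intro c u _; simp [iter]
  | succ N ih =>
    intro c u h
    rw [iter, h, ← sub_smul, iter_smul, ih c u h, smul_smul, Finset.prod_range_succ, mul_comm]

/-- if every vector of `W` is killed by a product of `T - r j` with positive `r j`, then `T + c` is bijective on `W`,
for `c ≥ 0` -/
theorem bij_add (T : V →ₗ[ℚ] V) (W : Submodule ℚ V) (hT : ∀ u ∈ W, T u ∈ W) (r : ℕ → ℚ) (hr : ∀ j, 0 < r j)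
    (hk : ∀ u ∈ W, ∃ N, iter T r N u = 0) (c : ℚ) (hc : 0 ≤ c) : Set.BijOn (fun u => T u + c • u) W W := by
  refine ⟨fun u hu => W.add_mem (hT u hu) (W.smul_mem _ hu), ?_, ?_⟩
  · intro u hu u' hu' h
    have hd : u - u' ∈ W := W.sub_mem hu hu'
    have h1 : T (u - u') = -c • (u - u') := by
      have h' : T u + c • u = T u' + c • u' := h
      rw [map_sub, neg_smul, smul_sub, sub_eq_iff_eq_add]
      have : T u = T u' + c • u' - c • u := by rw [← h']; abel
      rw [this]; abel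
    obtain ⟨N, hN⟩ := hk _ hd
    rw [iter_eigen T r N c _ h1] at hN
    rcases smul_eq_zero.1 hN with h2 | h2
    · exfalso
      obtain ⟨j, _, hj⟩ := Finset.prod_eq_zero_iff.1 h2
      have := hr j
      linarith
    · exact sub_eq_zero.1 h2
  · have key : ∀ N, ∀ u ∈ W, iter T r N u = 0 → ∃ v ∈ W, T v + c • v = u := by
      intro N
      induction N with
      | zero =>
        intro u _ h
        refine ⟨0, W.zero_mem, ?_⟩
        rw [map_zero, smul_zero, add_zero]
        exact h.symm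
      | succ N ih =>
        intro u hu h
        obtain ⟨v, hv, h1⟩ := ih (T u - r N • u) (W.sub_mem (hT u hu) (W.smul_mem _ hu)) h
        have hne : c + r N ≠ 0 := by
          have := hr N
          positivity
        refine ⟨(c + r N)⁻¹ • (u - v), W.smul_mem _ (W.sub_mem hu hv), ?_⟩
        rw [map_smul, smul_comm c, ← smul_add, map_sub, smul_sub]
        have e : T u - T v + (c • u - c • v) = (c + r N) • u := by
          have : T v = T u - r N • u - c • v := by rw [← h1]; abel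
          rw [this, add_smul]
          abel
        rw [e, smul_smul, inv_mul_cancel₀ hne, one_smul]
    intro u hu
    obtain ⟨N, hN⟩ := hk u hu
    obtain ⟨v, hv, h⟩ := key N u hu hN
    exact ⟨v, hv, h⟩

theorem bij_iter (T : V →ₗ[ℚ] V) (W : Submodule ℚ V) (hT : ∀ u ∈ W, T u ∈ W) (r : ℕ → ℚ) (hr : ∀ j, 0 < r j)
    (hk : ∀ u ∈ W, ∃ N, iter T r N u = 0) (s : ℕ → ℚ) (N : ℕ) (hs : ∀ j < N, s j ≤ 0) :
    Set.BijOn (iter T s N) W W := by
  induction N with
  | zero => exact Set.bijOn_id _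
  | succ N ih =>
    have h1 := bij_add T W hT r hr hk (-s N) (by have := hs N (Nat.lt_succ_self N); linarith)
    have h2 := (ih fun j hj => hs j (by omega)).comp h1
    refine h2.congr fun u _ => ?_
    change iter T s N (T u + -s N • u) = iter T s N (T u - s N • u)
    rw [neg_smul, ← sub_eq_add_neg]

/-- the relations of `sl_2` on a bounded graded space: `E` raises and `F` lowers the degree, `E F - F E = 2 i - c` in
degree `i` -/
structure Sl2 (W : ℤ → Submodule ℚ V) (E F : V →ₗ[ℚ] V) (c : ℤ) : Prop where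
  E_mem : ∀ i, ∀ w ∈ W i, E w ∈ W (i + 1)
  F_mem : ∀ i, ∀ w ∈ W i, F w ∈ W (i - 1)
  comm : ∀ i, ∀ w ∈ W i, E (F w) - F (E w) = ((2 * i - c : ℤ) : ℚ) • w
  low : ∃ a, ∀ i < a, ∀ w ∈ W i, w = 0
  high : ∃ b, ∀ i, b < i → ∀ w ∈ W i, w = 0

namespace Sl2

variable {W : ℤ → Submodule ℚ V} {E F : V →ₗ[ℚ] V} {c : ℤ}

/-- the opposite grading -/
theorem op (h : Sl2 W E F c) : Sl2 (fun i => W (-i)) F E (-c) where
  E_mem i w hw := by
    have h1 := h.F_mem _ w hw
    have e : -i - 1 = -(i + 1) := by ring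
    rwa [e] at h1
  F_mem i w hw := by
    have h1 := h.E_mem _ w hw
    have e : -i + 1 = -(i - 1) := by ring
    rwa [e] at h1
  comm i w hw := by
    have h1 := h.comm _ w hw
    rw [← neg_inj, neg_sub, h1, ← neg_smul]
    congr 1
    push_cast
    ring
  low := by
    obtain ⟨b, hb⟩ := h.high
    exact ⟨-b, fun i hi w hw => hb (-i) (by omega) w hw⟩
  high := by
    obtain ⟨a, ha⟩ := h.low
    exact ⟨-a, fun i hi w hw => ha (-i) (by omega) w hw⟩

theorem E_pow_mem (h : Sl2 W E F c) (N : ℕ) : ∀ i, ∀ w ∈ W i, (E ^ N) w ∈ W (i + N) := by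
  induction N with
  | zero => intro i w hw; simpa using hw
  | succ N ih =>
    intro i w hw
    rw [pow_succ', Module.End.mul_apply]
    have h1 := h.E_mem _ _ (ih i w hw)
    have e : i + (N : ℤ) + 1 = i + ((N + 1 : ℕ) : ℤ) := by push_cast; ring
    rwa [e] at h1

theorem F_pow_mem (h : Sl2 W E F c) (N : ℕ) : ∀ i, ∀ w ∈ W i, (F ^ N) w ∈ W (i - N) := by
  induction N with
  | zero => intro i w hw; simpa using hw
  | succ N ih =>
    intro i w hw
    rw [pow_succ', Module.End.mul_apply]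
    have h1 := h.F_mem _ _ (ih i w hw)
    have e : i - (N : ℤ) - 1 = i - ((N + 1 : ℕ) : ℤ) := by push_cast; ring
    rwa [e] at h1

theorem FE_pow (h : Sl2 W E F c) (N : ℕ) : ∀ i, ∀ u ∈ W i,
    F (E ((E ^ N) u)) = (E ^ N) (F (E u) - ((N * (2 * i - c + N + 1) : ℤ) : ℚ) • u) := by
  induction N with
  | zero => intro i u _; simp
  | succ N ih =>
    intro i u hu
    have e0 : (E ^ (N + 1)) u = (E ^ N) (E u) := by rw [pow_succ, Module.End.mul_apply]
    have h1 := ih (i + 1) (E u) (h.E_mem i u hu)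
    have h2 := h.comm (i + 1) (E u) (h.E_mem i u hu)
    rw [e0, h1]
    have h3 : F (E (E u)) = E (F (E u)) - ((2 * (i + 1) - c : ℤ) : ℚ) • E u := by
      rw [← h2]; abel
    rw [h3, pow_succ, Module.End.mul_apply]
    congr 1
    rw [map_sub, map_smul, sub_sub, ← add_smul]
    congr 2
    push_cast
    ring

/-- `F^N E^N` in degree `i` -/
theorem FE_iter (h : Sl2 W E F c) (N : ℕ) : ∀ i, ∀ u ∈ W i,
    (F ^ N) ((E ^ N) u) = iter (F ∘ₗ E) (fun j => ((j * (2 * i - c + j + 1) : ℤ) : ℚ)) N u := by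
  induction N with
  | zero => intro i u _; simp [iter]
  | succ N ih =>
    intro i u hu
    rw [iter, ← ih i _ ?_]
    · rw [pow_succ F, Module.End.mul_apply, pow_succ' E, Module.End.mul_apply, h.FE_pow N i u hu]
      rfl
    · refine Submodule.sub_mem _ ?_ (Submodule.smul_mem _ _ hu)
      have h1 := h.F_mem _ _ (h.E_mem i u hu)
      have e : i + 1 - 1 = i := by ring
      rw [e] at h1
      exact h1

theorem FE_mem (h : Sl2 W E F c) (i : ℤ) : ∀ u ∈ W i, (F ∘ₗ E) u ∈ W i := by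
  intro u hu
  have h1 := h.F_mem _ _ (h.E_mem i u hu)
  have e : i + 1 - 1 = i := by ring
  rw [e] at h1
  exact h1

/-- shifting the operator and the roots -/
theorem iter_shift (T T' : V →ₗ[ℚ] V) (U : Submodule ℚ V) (hT : ∀ u ∈ U, T u ∈ U) (a : ℚ)
    (h : ∀ u ∈ U, T' u = T u + a • u) (r : ℕ → ℚ) (N : ℕ) : ∀ u ∈ U, iter T' (fun j => r j + a) N u = iter T r N u := by
  induction N with
  | zero => intro u _; rfl
  | succ N ih =>
    intro u hu
    rw [iter, iter, h u hu]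
    have e : T u + a • u - (r N + a) • u = T u - r N • u := by
      rw [add_smul]; abel
    rw [e]
    exact ih _ (U.sub_mem (hT u hu) (U.smul_mem _ hu))

/-- in degree `i` with `k = c - 2 i > 0` the operator `F E` has positive eigenvalues -/
theorem kill (h : Sl2 W E F c) (i : ℤ) (k : ℕ) (hk : (k : ℤ) = c - 2 * i) : ∀ u ∈ W i,
    ∃ N, iter (F ∘ₗ E) (fun j => ((j + 1 : ℕ) : ℚ) * ((j + k : ℕ) : ℚ)) N u = 0 := by
  intro u hu
  obtain ⟨a, ha⟩ := h.low
  refine ⟨(i - a + 1).toNat, ?_⟩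
  set N := (i - a + 1).toNat with hN
  have h0 : (F ^ N) u = 0 := ha (i - N) (by omega) _ (h.F_pow_mem N i u hu)
  have hop := h.op.FE_iter N (-i) u (by simpa using hu)
  rw [h0, map_zero] at hop
  have hEF : ∀ u ∈ W i, (E ∘ₗ F) u ∈ W i := by
    intro u hu
    have h1 := h.E_mem _ _ (h.F_mem i u hu)
    have e : i - 1 + 1 = i := by ring
    rw [e] at h1
    exact h1
  have hsh := iter_shift (E ∘ₗ F) (F ∘ₗ E) (W i) hEF (k : ℚ) (by
    intro u hu
    have h1 := h.comm i u hu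
    change F (E u) = E (F u) + (k : ℚ) • u
    have e : ((2 * i - c : ℤ) : ℚ) = -(k : ℚ) := by
      have : (2 * i - c : ℤ) = -(k : ℤ) := by omega
      rw [this]; push_cast; ring
    rw [e, neg_smul] at h1
    rw [sub_eq_iff_eq_add] at h1
    rw [h1]
    abel) (fun j => ((j * (2 * -i - -c + j + 1) : ℤ) : ℚ)) N u hu
  rw [← hop] at hsh
  rw [← hsh]
  congr 1
  funext j
  have e : (2 * -i - -c : ℤ) = k := by omega
  push_cast
  have e2 : (2 * -(i : ℚ) - -(c : ℚ)) = k := by exact_mod_cast e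
  rw [e2]
  ring

theorem FE_bij (h : Sl2 W E F c) (i : ℤ) (k : ℕ) (hk : (k : ℤ) = c - 2 * i) (hk0 : 0 < k) :
    Set.BijOn (fun u => (F ^ k) ((E ^ k) u)) (W i) (W i) := by
  have h1 := bij_iter (F ∘ₗ E) (W i) (h.FE_mem i) (fun j => ((j + 1 : ℕ) : ℚ) * ((j + k : ℕ) : ℚ))
    (fun j => by positivity) (h.kill i k hk) (fun j => ((j * (2 * i - c + j + 1) : ℤ) : ℚ)) k (by
      intro j hj
      have e : (j * (2 * i - c + j + 1) : ℤ) ≤ 0 := by
        have h2 : (2 * i - c + j + 1 : ℤ) ≤ 0 := by omega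
        exact mul_nonpos_of_nonneg_of_nonpos (by positivity) h2
      exact_mod_cast e)
  refine h1.congr fun u hu => ?_
  exact (h.FE_iter k i u hu).symm

/-- hard Lefschetz -/
theorem lefschetz (h : Sl2 W E F c) (i : ℤ) (k : ℕ) (hk : (k : ℤ) = c - 2 * i) :
    Set.BijOn (E ^ k) (W i) (W (i + k)) := by
  rcases Nat.eq_zero_or_pos k with rfl | hk0
  · have e : i + ((0 : ℕ) : ℤ) = i := by simp
    rw [e]
    exact Set.bijOn_id _
  refine ⟨fun u hu => h.E_pow_mem k i u hu, ?_, ?_⟩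
  · intro u hu u' hu' huu
    refine (h.FE_bij i k hk hk0).injOn hu hu' ?_
    change (F ^ k) ((E ^ k) u) = (F ^ k) ((E ^ k) u')
    rw [huu]
  · intro w hw
    have h1 := h.op.FE_bij (-(i + k)) k (by omega) hk0
    have e : - -(i + (k : ℤ)) = i + k := by ring
    simp only [e] at h1
    obtain ⟨v, hv, h2⟩ := h1.surjOn hw
    refine ⟨(F ^ k) v, ?_, h2⟩
    have h3 := h.F_pow_mem k _ v hv
    have e2 : i + (k : ℤ) - k = i := by ring
    rw [e2] at h3
    exact h3

end Sl2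

/-- two centres: a bounded graded space on which `L` satisfies hard Lefschetz with two different centres is zero -/
theorem two_centres (W : ℤ → Submodule ℚ V) (L : V →ₗ[ℚ] V) (c c' : ℤ) (hc : c ≠ c')
    (low : ∃ a, ∀ i < a, ∀ w ∈ W i, w = 0) (high : ∃ b, ∀ i, b < i → ∀ w ∈ W i, w = 0)
    (h : ∀ (i : ℤ) (k : ℕ), (k : ℤ) = c - 2 * i → Set.BijOn (L ^ k) (W i) (W (i + k)))
    (h' : ∀ (i : ℤ) (k : ℕ), (k : ℤ) = c' - 2 * i → Set.BijOn (L ^ k) (W i) (W (i + k))) :
    ∀ i, ∀ w ∈ W i, w = 0 := by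
  -- the support is symmetric
  have sym : ∀ (d : ℤ), (∀ (i : ℤ) (k : ℕ), (k : ℤ) = d - 2 * i → Set.BijOn (L ^ k) (W i) (W (i + k))) →
      ∀ i, (∃ w ∈ W i, w ≠ 0) → ∃ w ∈ W (d - i), w ≠ 0 := by
    intro d hd i ⟨w, hw, hw0⟩
    rcases le_total (2 * i) d with hi | hi
    · obtain ⟨k, hk⟩ := Int.eq_ofNat_of_zero_le (show 0 ≤ d - 2 * i by omega)
      have h1 := hd i k hk.symm
      refine ⟨(L ^ k) w, ?_, ?_⟩
      · have e : i + (k : ℤ) = d - i := by omega
        rw [← e]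
        exact h1.mapsTo hw
      · intro h2
        apply hw0
        refine h1.injOn hw (W i).zero_mem ?_
        rw [h2, map_zero]
    · obtain ⟨k, hk⟩ := Int.eq_ofNat_of_zero_le (show 0 ≤ 2 * i - d by omega)
      have h1 := hd (d - i) k (by omega)
      have e : d - i + (k : ℤ) = i := by omega
      rw [e] at h1
      obtain ⟨v, hv, h2⟩ := h1.surjOn hw
      refine ⟨v, hv, ?_⟩
      rintro rfl
      apply hw0
      rw [← h2, map_zero]
  by_contra hcon
  push Not at hcon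
  obtain ⟨i, w, hw, hw0⟩ := hcon
  obtain ⟨a, ha⟩ := low
  obtain ⟨b, hb⟩ := high
  have trans : ∀ (m : ℕ), (∃ w ∈ W (i + m * (c' - c)), w ≠ 0) := by
    intro m
    induction m with
    | zero => exact ⟨w, by simpa using hw, hw0⟩
    | succ m ih =>
      have h1 := sym c' h' _ (sym c h _ ih)
      have e : c' - (c - (i + m * (c' - c))) = i + ((m + 1 : ℕ) : ℤ) * (c' - c) := by push_cast; ring
      rwa [e] at h1
  rcases lt_or_gt_of_ne hc with h1 | h1
  · obtain ⟨w, hw, hw0⟩ := trans (b - i + 1).toNat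
    refine hw0 (hb _ ?_ w hw)
    have h2 : (b - i + 1) ≤ ((b - i + 1).toNat : ℤ) := Int.self_le_toNat _
    have h3 : ((b - i + 1).toNat : ℤ) * 1 ≤ ((b - i + 1).toNat : ℤ) * (c' - c) := by
      refine mul_le_mul_of_nonneg_left (by omega) (by positivity)
    omega
  · obtain ⟨w, hw, hw0⟩ := trans (i - a + 1).toNat
    refine hw0 (ha _ ?_ w hw)
    have h2 : (i - a + 1) ≤ ((i - a + 1).toNat : ℤ) := Int.self_le_toNat _
    have h3 : ((i - a + 1).toNat : ℤ) * 1 ≤ ((i - a + 1).toNat : ℤ) * (c - c') := by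
      refine mul_le_mul_of_nonneg_left (by omega) (by positivity)
    have h4 : ((i - a + 1).toNat : ℤ) * (c' - c) = -(((i - a + 1).toNat : ℤ) * (c - c')) := by ring
    omega

/-- The operators of the standard conjecture of Lefschetz type on a bounded graded space `gr i` (`0 ≤ i ≤ n + 1`):
`π j` are the Künneth projectors (`0 ≤ j ≤ 2 n`), `Λ` lowers the degree, and the relations of `sl_2` hold. -/
structure Kunneth (gr : ℤ → Submodule ℚ V) (L Λ : V →ₗ[ℚ] V) (π : ℤ → V →ₗ[ℚ] V) (n : ℕ) : Prop where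
  L_mem : ∀ i, ∀ x ∈ gr i, L x ∈ gr (i + 1)
  Λ_mem : ∀ i, ∀ x ∈ gr i, Λ x ∈ gr (i - 1)
  π_mem : ∀ i j, ∀ x ∈ gr i, π j x ∈ gr i
  low : ∀ i < 0, ∀ x ∈ gr i, x = 0
  high : ∀ i, (n : ℤ) + 1 < i → ∀ x ∈ gr i, x = 0
  sum_π : ∀ i, ∀ x ∈ gr i, ∑ j ∈ Finset.Icc (0 : ℤ) (2 * n), π j x = x
  π_range : ∀ i j : ℤ, ¬ (0 ≤ j ∧ j ≤ 2 * n) → ∀ x ∈ gr i, π j x = 0
  π_idem : ∀ i j, ∀ x ∈ gr i, π j (π j x) = π j x
  π_orth : ∀ i j k, j ≠ k → ∀ x ∈ gr i, π j (π k x) = 0
  L_π : ∀ i j, ∀ x ∈ gr i, L (π j x) = π (j + 2) (L x)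
  Λ_π : ∀ i j, ∀ x ∈ gr i, Λ (π j x) = π (j - 2) (Λ x)
  comm : ∀ i, ∀ x ∈ gr i, L (Λ x) - Λ (L x) = ∑ j ∈ Finset.Icc (0 : ℤ) (2 * n), ((j - n : ℤ) : ℚ) • π j x

namespace Kunneth

variable {gr : ℤ → Submodule ℚ V} {L Λ : V →ₗ[ℚ] V} {π : ℤ → V →ₗ[ℚ] V} {n : ℕ}

/-- the part of weight `s`: the classes `x` of degree `i` with `π (2 i - s) x = x` -/
def part (gr : ℤ → Submodule ℚ V) (π : ℤ → V →ₗ[ℚ] V) (s i : ℤ) : Submodule ℚ V where
  carrier := {x | x ∈ gr i ∧ π (2 * i - s) x = x}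
  add_mem' := fun {x y} hx hy => ⟨(gr i).add_mem hx.1 hy.1, by rw [map_add, hx.2, hy.2]⟩
  zero_mem' := ⟨(gr i).zero_mem, map_zero _⟩
  smul_mem' := fun c x hx => ⟨(gr i).smul_mem c hx.1, by rw [map_smul, hx.2]⟩

theorem sl2 (h : Kunneth gr L Λ π n) (s : ℤ) : Sl2 (part gr π s) L Λ (n + s) where
  E_mem i x hx := by
    refine ⟨h.L_mem i x hx.1, ?_⟩
    have h1 := h.L_π i (2 * i - s) x hx.1
    rw [hx.2] at h1
    have e : 2 * (i + 1) - s = 2 * i - s + 2 := by ring
    rw [e, ← h1]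
  F_mem i x hx := by
    refine ⟨h.Λ_mem i x hx.1, ?_⟩
    have h1 := h.Λ_π i (2 * i - s) x hx.1
    rw [hx.2] at h1
    have e : 2 * (i - 1) - s = 2 * i - s - 2 := by ring
    rw [e, ← h1]
  comm i x hx := by
    have h0 : ∀ j, j ≠ 2 * i - s → π j x = 0 := by
      intro j hj
      rw [← hx.2]
      exact h.π_orth i j _ hj x hx.1
    rw [h.comm i x hx.1]
    by_cases hr : 2 * i - s ∈ Finset.Icc (0 : ℤ) (2 * n)
    · rw [Finset.sum_eq_single_of_mem _ hr (fun j _ hj => by rw [h0 j hj, smul_zero]), hx.2]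
      congr 2
      ring
    · have hx0 : x = 0 := by
        rw [← hx.2]
        exact h.π_range i _ (fun hh => hr (Finset.mem_Icc.2 hh)) x hx.1
      rw [hx0]
      simp
  low := ⟨0, fun i hi x hx => h.low i hi x hx.1⟩
  high := ⟨n + 1, fun i hi x hx => h.high i hi x hx.1⟩

theorem L_pow_π (h : Kunneth gr L Λ π n) (k : ℕ) : ∀ i j, ∀ x ∈ gr i, (L ^ k) (π j x) = π (j + 2 * k) ((L ^ k) x) := by
  induction k with
  | zero => intro i j x _; simp
  | succ k ih =>
    intro i j x hx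
    rw [pow_succ, Module.End.mul_apply, Module.End.mul_apply, h.L_π i j x hx, ih (i + 1) (j + 2) _ (h.L_mem i x hx)]
    congr 2
    push_cast
    ring

theorem L_pow_mem (h : Kunneth gr L Λ π n) (k : ℕ) : ∀ i, ∀ x ∈ gr i, (L ^ k) x ∈ gr (i + k) := by
  induction k with
  | zero => intro i x hx; simpa using hx
  | succ k ih =>
    intro i x hx
    rw [pow_succ', Module.End.mul_apply]
    have h1 := h.L_mem _ _ (ih i x hx)
    have e : i + (k : ℤ) + 1 = i + ((k + 1 : ℕ) : ℤ) := by push_cast; ring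
    rwa [e] at h1

/-- **purity**: Q1 holds if and only if `π j` kills the classes of codimension `i` homologous to zero for
`j ≠ 2 i - 1` -/
theorem purity (h : Kunneth gr L Λ π n) :
    (∀ (i : ℤ) (k : ℕ), (k : ℤ) = n + 1 - 2 * i → Set.BijOn (L ^ k) (gr i) (gr (i + k))) ↔
      ∀ i j, j ≠ 2 * i - 1 → ∀ x ∈ gr i, π j x = 0 := by
  constructor
  · intro hQ i j hj x hx
    have h0 := two_centres (part gr π (2 * i - j)) L (n + (2 * i - j)) (n + 1) (by omega)
      (h.sl2 (2 * i - j)).low (h.sl2 (2 * i - j)).high (fun i' k hk => (h.sl2 (2 * i - j)).lefschetz i' k hk) (by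
        intro i' k hk
        have h1 := hQ i' k hk
        refine ⟨?_, fun a ha b hb hab => h1.injOn ha.1 hb.1 hab, ?_⟩
        · intro a ha
          refine ⟨h1.mapsTo ha.1, ?_⟩
          have h2 := h.L_pow_π k i' (2 * i' - (2 * i - j)) a ha.1
          rw [ha.2] at h2
          have e : 2 * (i' + (k : ℤ)) - (2 * i - j) = 2 * i' - (2 * i - j) + 2 * k := by ring
          rw [e, ← h2]
        · intro y hy
          obtain ⟨a, ha, h2⟩ := h1.surjOn hy.1
          refine ⟨π (2 * i' - (2 * i - j)) a, ⟨h.π_mem _ _ a ha, h.π_idem _ _ a ha⟩, ?_⟩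
          rw [h.L_pow_π k i' _ a ha, h2]
          have e : 2 * i' - (2 * i - j) + 2 * (k : ℤ) = 2 * (i' + (k : ℤ)) - (2 * i - j) := by ring
          rw [e]
          exact hy.2)
    refine h0 i (π j x) ⟨h.π_mem i j x hx, ?_⟩
    have e : 2 * i - (2 * i - j) = j := by ring
    rw [e]
    exact h.π_idem i j x hx
  · intro hP
    have hpart : ∀ i, part gr π 1 i = gr i := by
      intro i
      ext x
      constructor
      · intro hx; exact hx.1
      · intro hx
        refine ⟨hx, ?_⟩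
        have h1 := h.sum_π i x hx
        by_cases hr : 2 * i - 1 ∈ Finset.Icc (0 : ℤ) (2 * n)
        · rwa [Finset.sum_eq_single_of_mem _ hr (fun j _ hj => hP i j hj x hx)] at h1
        · rw [Finset.sum_eq_zero] at h1
          · rw [← h1, map_zero]
          · intro j hj
            exact hP i j (fun hh => hr (hh ▸ hj)) x hx
    intro i k hk
    have h1 := (h.sl2 1).lefschetz i k hk
    rwa [hpart, hpart] at h1

end Kunneth

end Pool.Agent.Helper21.HL
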