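import Pool.Agent.Helper21.SN.Sl2

/-!
MP_e2c9e7_nt: Q1 and the purity of the cycles homologous to zero with respect to a Lefschetz-Künneth decomposition.
-/

set_option autoImplicit false
set_option linter.unusedSectionVars false

namespace Pool.Agent.Helper21.Purity

universe u

variable {V : Type u} [AddCommGroup V] [Module ℚ V]

/-- the part `π_j gr^i` -/
def part (gr : ℤ → Submodule ℚ V) (π : ℤ → V →ₗ[ℚ] V) (i j : ℤ) : Set V := {x | x ∈ gr i ∧ π j x = x}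

/-- A graded rational vector space `gr i` (`1 ≤ i ≤ n`) with an operator `L` of degree one and projectors `π j`
(`0 ≤ j ≤ 2 n`) of degree zero with sum one, such that `L π_j = π_(j+2) L` and `L^(n-j) : π_j gr^i → π_(2n-j) gr^(i+n-j)`
is bijective for `j ≤ n`. -/
structure LefschetzKunneth (gr : ℤ → Submodule ℚ V) (L : V →ₗ[ℚ] V) (π : ℤ → V →ₗ[ℚ] V) (n : ℕ) : Prop where
  L_mem : ∀ i, ∀ x ∈ gr i, L x ∈ gr (i + 1)
  π_mem : ∀ i j, ∀ x ∈ gr i, π j x ∈ gr i
  low : ∀ i ≤ 0, ∀ x ∈ gr i, x = 0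
  high : ∀ i, (n : ℤ) < i → ∀ x ∈ gr i, x = 0
  sum_π : ∀ i, ∀ x ∈ gr i, ∑ j ∈ Finset.Icc (0 : ℤ) (2 * n), π j x = x
  π_idem : ∀ i j, ∀ x ∈ gr i, π j (π j x) = π j x
  π_orth : ∀ i j k, j ≠ k → ∀ x ∈ gr i, π j (π k x) = 0
  L_π : ∀ i j, ∀ x ∈ gr i, L (π j x) = π (j + 2) (L x)
  hard : ∀ (i j : ℤ) (k : ℕ), (k : ℤ) = n - j →
    Set.BijOn (fun x => (L ^ k) x) (part gr π i j) (part gr π (i + k) (2 * n - j))

namespace LefschetzKunneth

variable {gr : ℤ → Submodule ℚ V} {L : V →ₗ[ℚ] V} {π : ℤ → V →ₗ[ℚ] V} {n : ℕ}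

theorem pow_mem (h : LefschetzKunneth gr L π n) (k : ℕ) : ∀ i, ∀ x ∈ gr i, (L ^ k) x ∈ gr (i + k) := by
  induction k with
  | zero => intro i x hx; simpa using hx
  | succ k ih =>
    intro i x hx
    rw [pow_succ', Module.End.mul_apply]
    have h1 := h.L_mem _ _ (ih i x hx)
    have e : i + (k : ℤ) + 1 = i + ((k + 1 : ℕ) : ℤ) := by push_cast; ring
    rwa [e] at h1

theorem pow_π (h : LefschetzKunneth gr L π n) (k : ℕ) : ∀ i j, ∀ x ∈ gr i,
    (L ^ k) (π j x) = π (j + 2 * k) ((L ^ k) x) := by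
  induction k with
  | zero => intro i j x _; simp
  | succ k ih =>
    intro i j x hx
    rw [pow_succ, Module.End.mul_apply, Module.End.mul_apply, h.L_π i j x hx, ih (i + 1) (j + 2) _ (h.L_mem i x hx)]
    congr 2
    push_cast
    ring

theorem π_part (h : LefschetzKunneth gr L π n) (i j : ℤ) {x : V} (hx : x ∈ gr i) : π j x ∈ part gr π i j :=
  ⟨h.π_mem i j x hx, h.π_idem i j x hx⟩

theorem pow_part (h : LefschetzKunneth gr L π n) (k : ℕ) (i j : ℤ) {x : V} (hx : x ∈ part gr π i j) :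
    (L ^ k) x ∈ part gr π (i + k) (j + 2 * k) := by
  refine ⟨h.pow_mem k i x hx.1, ?_⟩
  have h1 := h.pow_π k i j x hx.1
  rw [hx.2] at h1
  exact h1.symm

/-- hard Lefschetz for the part of weight `s` -/
theorem hard' (h : LefschetzKunneth gr L π n) (s i : ℤ) (k : ℕ) (hk : (k : ℤ) = n + s - 2 * i) :
    Set.BijOn (fun x => (L ^ k) x) (part gr π i (2 * i - s)) (part gr π (n + s - i) (2 * (n + s - i) - s)) := by
  have h1 := h.hard i (2 * i - s) k (by omega)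
  have e1 : i + (k : ℤ) = n + s - i := by omega
  have e2 : 2 * (n : ℤ) - (2 * i - s) = 2 * (n + s - i) - s := by ring
  rwa [e1, e2] at h1

/-- the support of the part of weight `s` is symmetric -/
theorem symm_support (h : LefschetzKunneth gr L π n) (s i : ℤ) (hx : ∃ x ∈ part gr π i (2 * i - s), x ≠ 0) :
    ∃ x ∈ part gr π (n + s - i) (2 * (n + s - i) - s), x ≠ 0 := by
  obtain ⟨x, hx, hx0⟩ := hx
  rcases le_total (2 * i) (n + s) with hi | hi
  · obtain ⟨k, hk⟩ := Int.eq_ofNat_of_zero_le (show 0 ≤ n + s - 2 * i by omega)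
    have h1 := h.hard' s i k hk.symm
    refine ⟨(L ^ k) x, h1.mapsTo hx, ?_⟩
    intro h2
    apply hx0
    refine h1.injOn hx ⟨(gr i).zero_mem, map_zero _⟩ ?_
    change (L ^ k) x = (L ^ k) 0
    rw [h2, map_zero]
  · obtain ⟨k, hk⟩ := Int.eq_ofNat_of_zero_le (show 0 ≤ 2 * i - (n + s) by omega)
    have h1 := h.hard' s (n + s - i) k (by omega)
    have e : (n : ℤ) + s - (n + s - i) = i := by ring
    rw [e] at h1
    obtain ⟨v, hv, h2⟩ := h1.surjOn hx
    refine ⟨v, hv, ?_⟩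
    rintro rfl
    apply hx0
    rw [← h2]
    exact map_zero _

theorem range_of_ne (h : LefschetzKunneth gr L π n) {i : ℤ} {x : V} (hx : x ∈ gr i) (hx0 : x ≠ 0) :
    1 ≤ i ∧ i ≤ n := by
  constructor
  · by_contra hc
    exact hx0 (h.low i (by omega) x hx)
  · by_contra hc
    exact hx0 (h.high i (by omega) x hx)

/-- injectivity in Q1: no part of weight `s ≤ 0` -/
theorem inj_imp (h : LefschetzKunneth gr L π n)
    (hQ : ∀ i : ℕ, 1 ≤ i → 2 * i ≤ n + 1 → Set.InjOn (fun x => (L ^ (n + 1 - 2 * i)) x) (gr i)) (s : ℤ) (hs : s ≤ 0) :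
    ∀ m : ℕ, ∀ i : ℤ, i ≤ m → ∀ x ∈ part gr π i (2 * i - s), x = 0 := by
  intro m
  induction m with
  | zero => intro i hi x hx; exact h.low i (by simpa using hi) x hx.1
  | succ m ih =>
    intro i hi x hx
    by_contra hx0
    by_cases hi' : i ≤ m
    · exact hx0 (ih i hi' x hx)
    obtain ⟨y, hy, hy0⟩ := h.symm_support s i ⟨x, hx, hx0⟩
    -- the degree `i` is the lowest one
    have hlow : i ≤ n + s - i := by
      by_contra hc
      exact hy0 (ih _ (by omega) y hy)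
    obtain ⟨hi1, -⟩ := h.range_of_ne hx.1 hx0
    obtain ⟨i0, rfl⟩ := Int.eq_ofNat_of_zero_le (show 0 ≤ i by omega)
    have h1 := hQ i0 (by omega) (by omega)
    have h2 : (L ^ (n + 1 - 2 * i0)) x ∈ part gr π (n + 1 - i0) (2 * (n + 1 - i0) - s) := by
      have h3 := h.pow_part (n + 1 - 2 * i0) i0 (2 * i0 - s) hx
      have e1 : (i0 : ℤ) + ((n + 1 - 2 * i0 : ℕ) : ℤ) = n + 1 - i0 := by omega
      have e2 : 2 * (i0 : ℤ) - s + 2 * ((n + 1 - 2 * i0 : ℕ) : ℤ) = 2 * (n + 1 - i0) - s := by omega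
      rwa [e1, e2] at h3
    have h4 : (L ^ (n + 1 - 2 * i0)) x ≠ 0 := by
      intro h5
      apply hx0
      refine h1 hx.1 (gr i0).zero_mem ?_
      change (L ^ (n + 1 - 2 * i0)) x = (L ^ (n + 1 - 2 * i0)) 0
      rw [h5, map_zero]
    obtain ⟨z, hz, hz0⟩ := h.symm_support s _ ⟨_, h2, h4⟩
    exact hz0 (ih _ (by omega) z hz)

/-- surjectivity in Q1: no part of weight `s ≥ 2` -/
theorem surj_imp (h : LefschetzKunneth gr L π n)
    (hQ : ∀ i : ℕ, 1 ≤ i → 2 * i ≤ n + 1 →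
      Set.SurjOn (fun x => (L ^ (n + 1 - 2 * i)) x) (gr i) (gr (n + 1 - i))) (s : ℤ) (hs : 2 ≤ s) :
    ∀ m : ℕ, ∀ i : ℤ, (n : ℤ) + 1 - m ≤ i → ∀ x ∈ part gr π i (2 * i - s), x = 0 := by
  intro m
  induction m with
  | zero => intro i hi x hx; exact h.high i (by simp at hi; omega) x hx.1
  | succ m ih =>
    intro i hi x hx
    by_contra hx0
    by_cases hi' : (n : ℤ) + 1 - m ≤ i
    · exact hx0 (ih i hi' x hx)
    obtain ⟨y, hy, hy0⟩ := h.symm_support s i ⟨x, hx, hx0⟩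
    have hhigh : n + s - i ≤ i := by
      by_contra hc
      exact hy0 (ih _ (by omega) y hy)
    obtain ⟨hi1, hi2⟩ := h.range_of_ne hx.1 hx0
    obtain ⟨i0, hi0⟩ := Int.eq_ofNat_of_zero_le (show 0 ≤ n + 1 - i by omega)
    have h1 := hQ i0 (by omega) (by omega)
    have e : (n : ℤ) + 1 - i0 = i := by omega
    rw [e] at h1
    obtain ⟨v, hv, h2⟩ := h1 hx.1
    have h2' : (L ^ (n + 1 - 2 * i0)) v = x := h2
    have h3 : (L ^ (n + 1 - 2 * i0)) (π (2 * i0 - s) v) = x := by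
      rw [h.pow_π _ i0 _ v hv, h2']
      have e2 : 2 * (i0 : ℤ) - s + 2 * ((n + 1 - 2 * i0 : ℕ) : ℤ) = 2 * i - s := by omega
      rw [e2]
      exact hx.2
    have h4 : π (2 * i0 - s) v ≠ 0 := by
      intro h5
      apply hx0
      rw [← h3, h5, map_zero]
    obtain ⟨z, hz, hz0⟩ := h.symm_support s i0 ⟨_, h.π_part i0 (2 * i0 - s) hv, h4⟩
    exact hz0 (ih _ (by omega) z hz)

theorem inj_iff (h : LefschetzKunneth gr L π n) :
    (∀ i : ℕ, 1 ≤ i → 2 * i ≤ n + 1 → Set.InjOn (fun x => (L ^ (n + 1 - 2 * i)) x) (gr i)) ↔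
      ∀ i j : ℤ, 2 * i ≤ j → ∀ x ∈ gr i, π j x = 0 := by
  constructor
  · intro hQ i j hij x hx
    have h1 := h.inj_imp hQ (2 * i - j) (by omega) i.toNat i (Int.self_le_toNat i) (π j x)
    have e : 2 * i - (2 * i - j) = j := by ring
    rw [e] at h1
    exact h1 (h.π_part i j hx)
  · intro hP i hi1 hi2 x hx y hy hxy
    have hd : (L ^ (n + 1 - 2 * i)) (x - y) = 0 := by
      have hxy' : (L ^ (n + 1 - 2 * i)) x = (L ^ (n + 1 - 2 * i)) y := hxy
      rw [map_sub, hxy', sub_self]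
    have hxy2 : x - y ∈ gr i := (gr i).sub_mem hx hy
    have h0 : ∀ j, π j (x - y) = 0 := by
      intro j
      by_cases hj : 2 * (i : ℤ) ≤ j
      · exact hP i j hj _ hxy2
      · obtain ⟨r, hr⟩ := Int.eq_ofNat_of_zero_le (show 0 ≤ 2 * (i : ℤ) - j - 1 by omega)
        have h1 := h.hard' (2 * i - j) i (r + (n + 1 - 2 * i)) (by omega)
        have e : 2 * (i : ℤ) - (2 * i - j) = j := by ring
        rw [e] at h1
        refine h1.injOn (h.π_part i j hxy2) ⟨(gr i).zero_mem, map_zero _⟩ ?_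
        change (L ^ (r + (n + 1 - 2 * i))) _ = (L ^ (r + (n + 1 - 2 * i))) 0
        rw [pow_add, Module.End.mul_apply, h.pow_π _ i j _ hxy2, hd, map_zero, map_zero, map_zero]
    have h2 := h.sum_π i _ hxy2
    rw [Finset.sum_eq_zero fun j _ => h0 j] at h2
    exact sub_eq_zero.1 h2.symm

theorem surj_iff (h : LefschetzKunneth gr L π n) :
    (∀ i : ℕ, 1 ≤ i → 2 * i ≤ n + 1 →
      Set.SurjOn (fun x => (L ^ (n + 1 - 2 * i)) x) (gr i) (gr (n + 1 - i))) ↔
      ∀ i j : ℤ, j ≤ 2 * i - 2 → ∀ x ∈ gr i, π j x = 0 := by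
  constructor
  · intro hQ i j hij x hx
    have h1 := h.surj_imp hQ (2 * i - j) (by omega) (n + 1 - i).toNat i (by
      have := Int.self_le_toNat ((n : ℤ) + 1 - i)
      omega) (π j x)
    have e : 2 * i - (2 * i - j) = j := by ring
    rw [e] at h1
    exact h1 (h.π_part i j hx)
  · intro hP i hi1 hi2 y hy
    have hy' : y ∈ gr (n + 1 - i) := hy
    have key : ∀ j, ∃ x ∈ gr i, (L ^ (n + 1 - 2 * i)) x = π j y := by
      intro j
      by_cases hj : j ≤ 2 * ((n : ℤ) + 1 - i) - 2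
      · exact ⟨0, (gr i).zero_mem, by rw [hP _ j hj y hy', map_zero]⟩
      · -- weight `s = 2 (n + 1 - i) - j ≤ 1`
        obtain ⟨r, hr⟩ := Int.eq_ofNat_of_zero_le (show 0 ≤ 1 - (2 * ((n : ℤ) + 1 - i) - j) by omega)
        set s := 2 * ((n : ℤ) + 1 - i) - j with hs
        have h1 := h.hard' s (i + s - 1) ((n + 1 - 2 * i) + r) (by omega)
        have e1 : (n : ℤ) + s - (i + s - 1) = n + 1 - i := by ring
        have e2 : 2 * ((n : ℤ) + 1 - i) - s = j := by rw [hs]; ring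
        rw [e1, e2] at h1
        obtain ⟨v, hv, h2⟩ := h1.surjOn (h.π_part _ j hy')
        refine ⟨(L ^ r) v, ?_, ?_⟩
        · have h3 := h.pow_mem r _ v hv.1
          have e3 : (i : ℤ) + s - 1 + (r : ℤ) = i := by omega
          rwa [e3] at h3
        · rw [← Module.End.mul_apply, ← pow_add]
          exact h2
    choose f hf1 hf2 using key
    refine ⟨∑ j ∈ Finset.Icc (0 : ℤ) (2 * n), f j, Submodule.sum_mem _ fun j _ => hf1 j, ?_⟩
    change (L ^ (n + 1 - 2 * i)) _ = y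
    rw [map_sum, Finset.sum_congr rfl fun j _ => hf2 j]
    exact h.sum_π _ y hy'

theorem pure_iff (h : LefschetzKunneth gr L π n) :
    ((∀ i j : ℤ, 2 * i ≤ j → ∀ x ∈ gr i, π j x = 0) ∧ ∀ i j : ℤ, j ≤ 2 * i - 2 → ∀ x ∈ gr i, π j x = 0) ↔
      ∀ i : ℤ, ∀ x ∈ gr i, π (2 * i - 1) x = x := by
  constructor
  · rintro ⟨h1, h2⟩ i x hx
    have h3 := h.sum_π i x hx
    have h0 : ∀ j, j ≠ 2 * i - 1 → π j x = 0 := by
      intro j hj
      rcases lt_or_gt_of_ne hj with h4 | h4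
      · exact h2 i j (by omega) x hx
      · exact h1 i j (by omega) x hx
    by_cases hr : 2 * i - 1 ∈ Finset.Icc (0 : ℤ) (2 * n)
    · rwa [Finset.sum_eq_single_of_mem _ hr (fun j _ hj => h0 j hj)] at h3
    · rw [Finset.sum_eq_zero] at h3
      · rw [← h3, map_zero]
      · intro j hj
        exact h0 j (fun hh => hr (hh ▸ hj))
  · intro hP
    have h0 : ∀ i j, j ≠ 2 * i - 1 → ∀ x ∈ gr i, π j x = 0 := by
      intro i j hj x hx
      rw [← hP i x hx]
      exact h.π_orth i j _ hj x hx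
    exact ⟨fun i j hij x hx => h0 i j (by omega) x hx, fun i j hij x hx => h0 i j (by omega) x hx⟩

/-- Q1 is equivalent to purity -/
theorem lefschetz_iff (h : LefschetzKunneth gr L π n) :
    (∀ i : ℕ, 1 ≤ i → 2 * i ≤ n + 1 →
      Set.BijOn (fun x => (L ^ (n + 1 - 2 * i)) x) (gr i) (gr (n + 1 - i))) ↔
      ∀ i : ℤ, ∀ x ∈ gr i, π (2 * i - 1) x = x := by
  rw [← h.pure_iff, ← h.inj_iff, ← h.surj_iff]
  constructor
  · intro hQ
    exact ⟨fun i h1 h2 => (hQ i h1 h2).injOn, fun i h1 h2 => (hQ i h1 h2).surjOn⟩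
  · rintro ⟨h1, h2⟩ i hi1 hi2
    refine ⟨?_, h1 i hi1 hi2, h2 i hi1 hi2⟩
    intro x hx
    have h3 := h.pow_mem (n + 1 - 2 * i) i x hx
    have e : (i : ℤ) + ((n + 1 - 2 * i : ℕ) : ℤ) = n + 1 - i := by omega
    rw [e] at h3
    exact h3

end LefschetzKunneth

end Pool.Agent.Helper21.Purity
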